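import Mathlib

/-!
# The `l¹` norm of integral polynomials and determinants
-/

set_option autoImplicit false

namespace Pool.Agent.N572.HB

open MvPolynomial

section
variable {σ : Type}

/-- the sum of the absolute values of the coefficients -/
noncomputable def nrm (p : MvPolynomial σ ℤ) : ℕ := ∑ m ∈ p.support, (p.coeff m).natAbs

theorem nrm_eq (p : MvPolynomial σ ℤ) (s : Finset (σ →₀ ℕ)) (hs : p.support ⊆ s) :
    nrm p = ∑ m ∈ s, (p.coeff m).natAbs := by
  unfold nrm
  refine Finset.sum_subset hs fun m _ hm => ?_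
  rw [notMem_support_iff.1 hm, Int.natAbs_zero]

theorem nrm_zero : nrm (0 : MvPolynomial σ ℤ) = 0 := by
  simp [nrm]

theorem nrm_add (p q : MvPolynomial σ ℤ) : nrm (p + q) ≤ nrm p + nrm q := by
  classical
  rw [nrm_eq (p + q) (p.support ∪ q.support) support_add,
    nrm_eq p (p.support ∪ q.support) Finset.subset_union_left,
    nrm_eq q (p.support ∪ q.support) Finset.subset_union_right, ← Finset.sum_add_distrib]
  refine Finset.sum_le_sum fun m _ => ?_
  rw [coeff_add]
  exact Int.natAbs_add_le _ _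

theorem nrm_neg (p : MvPolynomial σ ℤ) : nrm (-p) = nrm p := by
  unfold nrm
  rw [support_neg]
  refine Finset.sum_congr rfl fun m _ => ?_
  rw [coeff_neg, Int.natAbs_neg]

theorem nrm_sum {ι : Type} (s : Finset ι) (f : ι → MvPolynomial σ ℤ) :
    nrm (∑ i ∈ s, f i) ≤ ∑ i ∈ s, nrm (f i) :=
  Finset.le_sum_of_subadditive nrm nrm_zero.le nrm_add s f

theorem nrm_monomial (m : σ →₀ ℕ) (a : ℤ) : nrm (monomial m a) ≤ a.natAbs := by
  classical
  rw [nrm_eq (monomial m a) {m} support_monomial_subset, Finset.sum_singleton, coeff_monomial,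
    if_pos rfl]

theorem nrm_C (a : ℤ) : nrm (C a : MvPolynomial σ ℤ) ≤ a.natAbs := nrm_monomial 0 a

theorem nrm_one : nrm (1 : MvPolynomial σ ℤ) ≤ 1 := nrm_C 1

theorem nrm_mul (p q : MvPolynomial σ ℤ) : nrm (p * q) ≤ nrm p * nrm q := by
  classical
  have e : p * q = ∑ m ∈ p.support, ∑ m' ∈ q.support,
      monomial (m + m') (p.coeff m * q.coeff m') := by
    conv_lhs => rw [p.as_sum, q.as_sum]
    rw [Finset.sum_mul_sum]
    refine Finset.sum_congr rfl fun m _ => Finset.sum_congr rfl fun m' _ => ?_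
    rw [monomial_mul]
  rw [e]
  refine (nrm_sum _ _).trans ?_
  unfold nrm
  rw [Finset.sum_mul_sum]
  refine Finset.sum_le_sum fun m _ => ?_
  refine (nrm_sum _ _).trans ?_
  refine Finset.sum_le_sum fun m' _ => ?_
  refine (nrm_monomial _ _).trans ?_
  rw [Int.natAbs_mul]

theorem nrm_prod {ι : Type} (s : Finset ι) (f : ι → MvPolynomial σ ℤ) :
    nrm (∏ i ∈ s, f i) ≤ ∏ i ∈ s, nrm (f i) := by
  classical
  induction s using Finset.induction_on with
  | empty => simpa using nrm_one
  | insert a s ha ih =>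
    rw [Finset.prod_insert ha, Finset.prod_insert ha]
    exact (nrm_mul _ _).trans (Nat.mul_le_mul_left _ ih)

theorem nrm_pow (p : MvPolynomial σ ℤ) (k : ℕ) : nrm (p ^ k) ≤ nrm p ^ k := by
  induction k with
  | zero => simpa using nrm_one
  | succ k ih =>
    rw [pow_succ, pow_succ]
    exact (nrm_mul _ _).trans (Nat.mul_le_mul_right _ ih)

theorem coeff_le_nrm (p : MvPolynomial σ ℤ) (m : σ →₀ ℕ) : (p.coeff m).natAbs ≤ nrm p := by
  classical
  by_cases hm : m ∈ p.support
  · exact Finset.single_le_sum (f := fun m => (p.coeff m).natAbs) (fun _ _ => Nat.zero_le _) hm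
  · rw [notMem_support_iff.1 hm]
    exact Nat.zero_le _

/-- The `l¹` norm is bounded by the coefficients. -/
theorem nrm_le [Fintype σ] (p : MvPolynomial σ ℤ) (w B : ℕ) (hw : p.totalDegree ≤ w)
    (hB : ∀ m, (p.coeff m).natAbs ≤ B) : nrm p ≤ (w + 1) ^ Fintype.card σ * B := by
  classical
  have h1 : p.support.card ≤ (w + 1) ^ Fintype.card σ := by
    have h2 : p.support.card ≤ (Finset.univ : Finset (σ → Fin (w + 1))).card := by
      refine Finset.card_le_card_of_injOn (fun m i => (⟨m i % (w + 1), Nat.mod_lt _ (by omega)⟩ :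
        Fin (w + 1))) (fun _ _ => Finset.mem_univ _) ?_
      intro m hm m' hm' he
      have hb : ∀ n ∈ p.support, ∀ i, n i ≤ w := by
        intro n hn i
        have h3 : n.degree ≤ p.totalDegree := by
          rw [totalDegree_eq]
          refine le_trans ?_ (Finset.le_sup (f := fun m : σ →₀ ℕ => m.toMultiset.card) hn)
          rw [Finsupp.card_toMultiset]
          rfl
        exact ((Finsupp.le_degree i n).trans h3).trans hw
      ext i
      have h3 := congrFun he i
      have h4 := congrArg Fin.val h3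
      simp only at h4
      rw [Nat.mod_eq_of_lt (Nat.lt_succ_of_le (hb m hm i)),
        Nat.mod_eq_of_lt (Nat.lt_succ_of_le (hb m' hm' i))] at h4
      exact h4
    rw [Finset.card_univ, Fintype.card_fun, Fintype.card_fin] at h2
    exact h2
  unfold nrm
  refine (Finset.sum_le_card_nsmul _ _ B fun m _ => hB m).trans ?_
  rw [smul_eq_mul]
  exact Nat.mul_le_mul_right _ h1

theorem nrm_det {N : ℕ} (M : Matrix (Fin N) (Fin N) (MvPolynomial σ ℤ)) (B : ℕ)
    (hB : ∀ i j, nrm (M i j) ≤ B) : nrm M.det ≤ N.factorial * B ^ N := by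
  classical
  rw [Matrix.det_apply]
  refine (nrm_sum _ _).trans ?_
  refine (Finset.sum_le_card_nsmul _ _ (B ^ N) fun s _ => ?_).trans ?_
  · have h1 : nrm (Equiv.Perm.sign s • ∏ i, M (s i) i) ≤ nrm (∏ i, M (s i) i) := by
      rcases Int.units_eq_one_or (Equiv.Perm.sign s) with h | h
      · rw [h, one_smul]
      · rw [h, Units.neg_smul, one_smul, nrm_neg]
    refine h1.trans ((nrm_prod _ _).trans ?_)
    refine (Finset.prod_le_pow_card _ _ B fun i _ => hB _ _).trans ?_
    rw [Finset.card_univ, Fintype.card_fin]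
  · rw [Finset.card_univ, Fintype.card_perm, Fintype.card_fin, smul_eq_mul]

theorem totalDegree_det {N : ℕ} (M : Matrix (Fin N) (Fin N) (MvPolynomial σ ℤ)) (D : ℕ)
    (hD : ∀ i j, (M i j).totalDegree ≤ D) : M.det.totalDegree ≤ N * D := by
  classical
  rw [Matrix.det_apply]
  refine totalDegree_finsetSum_le fun s _ => ?_
  have h1 : (Equiv.Perm.sign s • ∏ i, M (s i) i).totalDegree ≤
      (∏ i, M (s i) i).totalDegree := by
    rcases Int.units_eq_one_or (Equiv.Perm.sign s) with h | h
    · rw [h, one_smul]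
    · rw [h, Units.neg_smul, one_smul, totalDegree_neg]
  refine h1.trans ((totalDegree_finsetProd _ _).trans ?_)
  refine (Finset.sum_le_card_nsmul _ _ D fun i _ => hD _ _).trans ?_
  rw [Finset.card_univ, Fintype.card_fin, smul_eq_mul]

end

end Pool.Agent.N572.HB
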