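import Mathlib

/-!
# Polynomials in `t` and `Θ` as polynomials in `Θ`
-/

set_option autoImplicit false

namespace Pool.Agent.N572.HB

open MvPolynomial

/-- polynomials in `t_b = X (some b)`, `Θ = X none` as polynomials in `Θ` -/
noncomputable abbrev E (d : ℕ) :
    MvPolynomial (Option (Fin d)) ℤ ≃ₐ[ℤ] Polynomial (MvPolynomial (Fin d) ℤ) :=
  optionEquivLeft ℤ (Fin d)

theorem E_rename {d : ℕ} (c : MvPolynomial (Fin d) ℤ) : E d (rename some c) = Polynomial.C c := by
  induction c using MvPolynomial.induction_on with
  | C a => rw [rename_C, optionEquivLeft_C]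
  | add p q hp hq => rw [map_add, map_add, hp, hq, map_add]
  | mul_X p i hp => rw [map_mul, map_mul, hp, rename_X, optionEquivLeft_X_some, map_mul]

theorem E_symm_C {d : ℕ} (c : MvPolynomial (Fin d) ℤ) :
    (E d).symm (Polynomial.C c) = rename some c := by
  rw [← E_rename, AlgEquiv.symm_apply_apply]

theorem dvd_iff {d : ℕ} (h p : MvPolynomial (Option (Fin d)) ℤ) : h ∣ p ↔ E d h ∣ E d p :=
  (map_dvd_iff (E d)).symm

/-- Pseudo-division. -/
theorem pdiv {R : Type} [CommRing R] (H : Polynomial R) (hn : 0 < H.natDegree) :
    ∀ (N : ℕ) (q : Polynomial R), q.natDegree < H.natDegree + N →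
      ∃ (k : ℕ) (q' r : Polynomial R), Polynomial.C H.leadingCoeff ^ k * q = H * q' + r ∧
        r.natDegree < H.natDegree := by
  intro N
  induction N with
  | zero =>
    intro q hq
    exact ⟨0, 0, q, by simp, by simpa using hq⟩
  | succ N ih =>
    intro q hq
    by_cases hlt : q.natDegree < H.natDegree + N
    · exact ih q hlt
    · have hdeg : q.natDegree = H.natDegree + N := by omega
      set q1 : Polynomial R := Polynomial.C H.leadingCoeff * q -
        Polynomial.C q.leadingCoeff * Polynomial.X ^ N * H with hq1
      have hco : ∀ i, H.natDegree + N ≤ i → q1.coeff i = 0 := by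
        intro i hi
        rw [hq1, Polynomial.coeff_sub, Polynomial.coeff_C_mul, mul_assoc, Polynomial.coeff_C_mul]
        rw [Polynomial.coeff_X_pow_mul', if_pos (by omega)]
        rcases Nat.eq_or_lt_of_le hi with h | h
        · rw [← h, Nat.add_sub_cancel, ← hdeg, Polynomial.coeff_natDegree,
            Polynomial.coeff_natDegree, mul_comm, sub_self]
        · rw [Polynomial.coeff_eq_zero_of_natDegree_lt (p := q) (by omega),
            Polynomial.coeff_eq_zero_of_natDegree_lt (p := H) (by omega)]
          simp
      have hlt1 : q1.natDegree < H.natDegree + N := by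
        by_contra hge
        have h0 : q1.leadingCoeff = 0 := hco _ (by omega)
        rw [Polynomial.leadingCoeff_eq_zero] at h0
        rw [h0, Polynomial.natDegree_zero] at hge
        omega
      obtain ⟨k, q', r, h1, h2⟩ := ih q1 hlt1
      refine ⟨k + 1, q' + Polynomial.C H.leadingCoeff ^ k * (Polynomial.C q.leadingCoeff *
        Polynomial.X ^ N), r, ?_, h2⟩
      have h3 : Polynomial.C H.leadingCoeff ^ (k + 1) * q = Polynomial.C H.leadingCoeff ^ k * q1 +
          Polynomial.C H.leadingCoeff ^ k * (Polynomial.C q.leadingCoeff * Polynomial.X ^ N * H) := by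
        rw [hq1]; ring
      rw [h3, h1]; ring

end Pool.Agent.N572.HB
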