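import Pool.Agent.N572.HB.Van
import Pool.Agent.N572.HB.Nrm

/-!
# HB/7: mild equations on large subsets hold generically
-/

set_option autoImplicit false

namespace Pool.Agent.N572.HB

open Filter MvPolynomial Pool.Agent.Y902.GN Pool.Agent.N741.HB

/-- A nontrivial syzygy if the resultant vanishes. -/
theorem exists_syz {R : Type} [CommRing R] [IsDomain R] (f g : Polynomial R)
    (h : Polynomial.resultant f g = 0) : ∃ a b : Polynomial R, (a ≠ 0 ∨ b ≠ 0) ∧
      f * b + g * a = 0 ∧ a.degree < f.natDegree ∧ b.degree < g.natDegree := by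
  classical
  set m := f.natDegree with hm
  set n := g.natDegree with hn
  obtain ⟨v, hv0, hv⟩ := Matrix.exists_mulVec_eq_zero_iff.2 h
  let b₁ := ((Polynomial.degreeLT.basis R m).prod (Polynomial.degreeLT.basis R n)).reindex
    finSumFinEquiv
  let b₂ := Polynomial.degreeLT.basis R (m + n)
  let x := b₁.equivFun.symm v
  have hx : (b₁.repr x : Fin (m + n) → R) = v := b₁.equivFun.apply_symm_apply v
  have h1 := LinearMap.toMatrix_mulVec_repr b₁ b₂
    (Polynomial.sylvesterMap f g hm.ge hn.ge) x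
  rw [Polynomial.toMatrix_sylvesterMap', hx, hv] at h1
  have h2 : Polynomial.sylvesterMap f g hm.ge hn.ge x = 0 := by
    apply b₂.repr.injective
    rw [map_zero]
    exact DFunLike.coe_injective h1.symm
  have hx0 : x ≠ 0 := by
    intro h3
    apply hv0
    rw [← hx, h3, map_zero]
    rfl
  refine ⟨(x.1 : Polynomial R), (x.2 : Polynomial R), ?_, ?_, ?_, ?_⟩
  · by_contra hcon
    push Not at hcon
    apply hx0
    exact Prod.ext (Subtype.ext hcon.1) (Subtype.ext hcon.2)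
  · have h3 := congrArg Subtype.val h2
    exact h3
  · exact Polynomial.mem_degreeLT.1 x.1.2
  · exact Polynomial.mem_degreeLT.1 x.2.2

/-- The resultant does not vanish. -/
theorem res_ne {d : ℕ} {h p : MvPolynomial (Option (Fin d)) ℤ} (hI : Irr h) (hp : ¬ InP h p) :
    Polynomial.resultant (E d h) (E d p) ≠ 0 := by
  intro h0
  have hE0 : E d h ≠ 0 := fun e => hI.ne ((EmbeddingLike.map_eq_zero_iff (f := E d)).1 e)
  obtain ⟨a, b, hab, h1, h2, _⟩ := exists_syz _ _ h0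
  have h3 : InP h (p * (E d).symm a) := by
    rw [InP_iff]
    refine ⟨1, one_ne_zero, ?_⟩
    rw [map_one, one_mul, map_mul, AlgEquiv.apply_symm_apply]
    exact ⟨-b, by linear_combination (exp := 1) h1⟩
  have ha : a ≠ 0 := by
    rintro rfl
    rw [mul_zero, add_zero] at h1
    rcases mul_eq_zero.1 h1 with h | h
    · exact hE0 h
    · rcases hab with h' | h'
      · exact h' rfl
      · exact h' h
  rcases hI.mul _ _ h3 with h4 | h4
  · exact hp h4
  · rw [InP_iff] at h4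
    obtain ⟨c, hc, hd⟩ := h4
    rw [AlgEquiv.apply_symm_apply] at hd
    have h5 : (Polynomial.C c * a).degree < (E d h).degree := by
      rw [Polynomial.degree_eq_natDegree hE0]
      exact lt_of_le_of_lt (Polynomial.degree_C_mul_of_mul_ne_zero
        (by
          rw [Ne, mul_eq_zero, not_or]
          exact ⟨hc, fun e => ha (Polynomial.leadingCoeff_eq_zero.1 e)⟩)).le h2
    have h6 := Polynomial.eq_zero_of_dvd_of_degree_lt hd h5
    rcases mul_eq_zero.1 h6 with h | h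
    · exact hc (Polynomial.C_eq_zero.1 h)
    · exact ha h

theorem res_eval {d : ℕ} {h p : MvPolynomial (Option (Fin d)) ℤ}
    (hn : 0 < (E d h).natDegree) (s : Fin d → ℤ) (y : ℤ)
    (h1 : eval (fun o => Option.elim o y s) h = 0)
    (h2 : eval (fun o => Option.elim o y s) p = 0) :
    eval s (Polynomial.resultant (E d h) (E d p)) = 0 := by
  obtain ⟨a, b, _, _, hab⟩ := Polynomial.exists_mul_add_mul_eq_C_resultant (E d h) (E d p)
    le_rfl le_rfl (Or.inl (by omega))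
  rw [optionEquivLeft_elim_eval] at h1 h2
  have h3 := congrArg (fun q => Polynomial.eval y (Polynomial.map (eval s) q)) hab
  simp only [Polynomial.map_add, Polynomial.map_mul, Polynomial.eval_add, Polynomial.eval_mul,
    Polynomial.map_C, Polynomial.eval_C] at h3
  rw [← h3, h1, h2]
  ring

theorem coeff_bd {d : ℕ} {h : MvPolynomial (Option (Fin d)) ℤ} {w : ℕ}
    (h1 : h.totalDegree ≤ w) (h2 : ∀ m, |h.coeff m| ≤ 2 ^ w) (i : ℕ) :
    ((E d h).coeff i).totalDegree ≤ w ∧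
      nrm ((E d h).coeff i) ≤ (w + 1) ^ d * 2 ^ w := by
  have h3 : ((E d h).coeff i).totalDegree ≤ w :=
    (totalDegree_coeff_optionEquivLeft_le _ _ h i).trans h1
  refine ⟨h3, ?_⟩
  have h4 := nrm_le ((E d h).coeff i) w (2 ^ w) h3 (fun m => by
    rw [optionEquivLeft_coeff_coeff]
    have h5 := h2 (m.optionElim i)
    rw [Int.abs_eq_natAbs] at h5
    exact_mod_cast h5)
  rw [Fintype.card_fin] at h4
  exact h4

theorem res_bd {d : ℕ} {h p : MvPolynomial (Option (Fin d)) ℤ} {w : ℕ}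
    (h1 : h.totalDegree ≤ w) (h2 : ∀ m, |h.coeff m| ≤ 2 ^ w)
    (p1 : p.totalDegree ≤ w) (p2 : ∀ m, |p.coeff m| ≤ 2 ^ w) :
    (Polynomial.resultant (E d h) (E d p)).totalDegree ≤ (2 * d + 6) * (w * w) ∧
    ∀ m, |(Polynomial.resultant (E d h) (E d p)).coeff m| ≤ 2 ^ ((2 * d + 6) * (w * w)) := by
  set m₀ := (E d h).natDegree with hm
  set n₀ := (E d p).natDegree with hn
  have hm' : m₀ ≤ w := by
    rw [hm, natDegree_optionEquivLeft]
    exact (degreeOf_le_totalDegree h none).trans h1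
  have hn' : n₀ ≤ w := by
    rw [hn, natDegree_optionEquivLeft]
    exact (degreeOf_le_totalDegree p none).trans p1
  set B := (w + 1) ^ d * 2 ^ w with hB
  have hB1 : 1 ≤ B := Nat.mul_pos (Nat.pow_pos (by omega)) (Nat.pow_pos (by norm_num))
  have hent : ∀ i j, (Polynomial.sylvester (E d h) (E d p) m₀ n₀ i j).totalDegree ≤ w ∧
      nrm (Polynomial.sylvester (E d h) (E d p) m₀ n₀ i j) ≤ B := by
    intro i j
    have h0 : (0 : MvPolynomial (Fin d) ℤ).totalDegree ≤ w ∧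
        nrm (0 : MvPolynomial (Fin d) ℤ) ≤ B := by
      rw [totalDegree_zero, nrm_zero]
      exact ⟨Nat.zero_le _, Nat.zero_le _⟩
    induction j using Fin.addCases with
    | left j =>
      simp only [Polynomial.sylvester, Matrix.of_apply, Fin.addCases_left]
      split_ifs
      · exact coeff_bd p1 p2 _
      · exact h0
    | right j =>
      simp only [Polynomial.sylvester, Matrix.of_apply, Fin.addCases_right]
      split_ifs
      · exact coeff_bd h1 h2 _
      · exact h0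
  have hN : m₀ + n₀ ≤ 2 * w := by omega
  constructor
  · refine (totalDegree_det _ w fun i j => (hent i j).1).trans ?_
    calc (m₀ + n₀) * w ≤ (2 * w) * w := Nat.mul_le_mul_right _ hN
      _ = 2 * (w * w) := by ring
      _ ≤ (2 * d + 6) * (w * w) := Nat.mul_le_mul_right _ (by omega)
  · intro m
    have h3 : nrm (Polynomial.resultant (E d h) (E d p)) ≤ (m₀ + n₀).factorial * B ^ (m₀ + n₀) :=
      nrm_det _ B fun i j => (hent i j).2
    have hw2 : w + 1 ≤ 2 ^ w := Nat.lt_two_pow_self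
    have h4 : (m₀ + n₀).factorial ≤ 2 ^ (4 * (w * w)) := by
      calc (m₀ + n₀).factorial ≤ (2 * w).factorial := Nat.factorial_le hN
        _ ≤ (2 * w) ^ (2 * w) := Nat.factorial_le_pow _
        _ ≤ (2 ^ (2 * w)) ^ (2 * w) :=
          Nat.pow_le_pow_left (Nat.lt_two_pow_self).le _
        _ = 2 ^ (4 * (w * w)) := by rw [← pow_mul]; congr 1; ring
    have h5 : B ^ (m₀ + n₀) ≤ 2 ^ ((2 * d + 2) * (w * w)) := by
      calc B ^ (m₀ + n₀) ≤ B ^ (2 * w) := Nat.pow_le_pow_right hB1 hN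
        _ ≤ ((2 ^ w) ^ d * 2 ^ w) ^ (2 * w) :=
          Nat.pow_le_pow_left (Nat.mul_le_mul_right _ (Nat.pow_le_pow_left hw2 d)) _
        _ = 2 ^ ((2 * d + 2) * (w * w)) := by
          rw [← pow_mul, ← pow_add, ← pow_mul]; congr 1; ring
    have h6 : ((Polynomial.resultant (E d h) (E d p)).coeff m).natAbs ≤
        2 ^ ((2 * d + 6) * (w * w)) := by
      refine (coeff_le_nrm _ m).trans (h3.trans ?_)
      calc (m₀ + n₀).factorial * B ^ (m₀ + n₀)
          ≤ 2 ^ (4 * (w * w)) * 2 ^ ((2 * d + 2) * (w * w)) := Nat.mul_le_mul h4 h5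
        _ = 2 ^ ((2 * d + 6) * (w * w)) := by rw [← pow_add]; congr 1; ring
    rw [Int.abs_eq_natAbs]
    exact_mod_cast h6

theorem PB.mild {Y : ℕ → ℕ} (hY : ∀ m : ℕ, ∀ᶠ ν in (Uf : Filter ℕ), m ≤ Y ν) {σ : Type}
    {p : ℕ → MvPolynomial σ ℤ} (h : PB Y p) : Mild Y p := by
  obtain ⟨C, hC⟩ := h
  refine ⟨fun ν => C + C * (Nat.log 2 (Y ν + 2) + 1), ?_, ?_⟩
  · exact Few.add hY (Few.const hY C)
      ((Few.const hY C).mul (fun c => ev_log_pow hY c))
  · filter_upwards [hC] with ν hν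
    refine ⟨hν.1.trans (Nat.le_add_right _ _), fun m => (hν.2 m).trans ?_⟩
    have h1 : Y ν + 2 ≤ 2 ^ (Nat.log 2 (Y ν + 2) + 1) :=
      (Nat.lt_pow_succ_log_self (by norm_num) _).le
    have h2 : (Y ν + 2) ^ C ≤ 2 ^ (C + C * (Nat.log 2 (Y ν + 2) + 1)) := by
      calc (Y ν + 2) ^ C ≤ (2 ^ (Nat.log 2 (Y ν + 2) + 1)) ^ C := Nat.pow_le_pow_left h1 C
        _ = 2 ^ (C * (Nat.log 2 (Y ν + 2) + 1)) := by rw [← pow_mul]; congr 1; ring
        _ ≤ _ := Nat.pow_le_pow_right (by norm_num) (Nat.le_add_left _ _)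
    exact_mod_cast h2

/-- The resultant of two mild families is mild. -/
theorem Mild.res {Y : ℕ → ℕ} (hY : ∀ m : ℕ, ∀ᶠ ν in (Uf : Filter ℕ), m ≤ Y ν) {d : ℕ}
    {h p : ℕ → MvPolynomial (Option (Fin d)) ℤ} (h1 : Mild Y h) (h2 : Mild Y p) :
    Mild Y (fun ν => Polynomial.resultant (E d (h ν)) (E d (p ν))) := by
  obtain ⟨w₁, hw₁, e₁⟩ := h1
  obtain ⟨w₂, hw₂, e₂⟩ := h2
  have hw : Few Y (fun ν => w₁ ν + w₂ ν) := Few.add hY hw₁ hw₂
  refine ⟨fun ν => (2 * d + 6) * ((w₁ ν + w₂ ν) * (w₁ ν + w₂ ν)),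
    (Few.const hY (2 * d + 6)).mul (hw.mul hw), ?_⟩
  filter_upwards [e₁, e₂] with ν h3 h4
  have hp1 : (2 : ℤ) ^ w₁ ν ≤ 2 ^ (w₁ ν + w₂ ν) := pow_le_pow_right₀ (by norm_num) (by omega)
  have hp2 : (2 : ℤ) ^ w₂ ν ≤ 2 ^ (w₁ ν + w₂ ν) := pow_le_pow_right₀ (by norm_num) (by omega)
  exact res_bd (h3.1.trans (Nat.le_add_right _ _)) (fun m => (h3.2 m).trans hp1)
    (h4.1.trans (Nat.le_add_left _ _)) (fun m => (h4.2 m).trans hp2)

theorem starL (h1 : S_start) (h2 : S_irr) : S_starL := by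
  intro Y N Om hY hB hBd G p hp hbig
  by_contra hcon
  have hno : ∀ᶠ ν in (Uf : Filter ℕ), ¬ InP (G.h ν) (p ν) := ev_not.2 hcon
  have hirr := h2 Y N Om hY hB hBd G
  have hres := Mild.res hY (PB.mild hY G.hPB) hp
  refine h1 Y N Om hY hBd G _ hres ?_ ?_
  · filter_upwards [hno, hirr] with ν h3 h4
    exact res_ne h4 h3
  · refine hbig.mono ?_
    filter_upwards [hirr, G.ev_h] with ν h4 h5
    intro t ht
    rw [Finset.mem_filter] at ht ⊢
    refine ⟨ht.1, ?_⟩
    exact res_eval (natDegree_pos h4.ne h4.one) _ _ (h5 t ht.1) ht.2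

end Pool.Agent.N572.HB
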