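import Pool.Agent.N741.HB.Stm
import Pool.Agent.N572.HB.Opt

/-!
# HB/1: a power of the leading coefficient is a denominator
-/

set_option autoImplicit false

namespace Pool.Agent.N572.HB

open MvPolynomial Pool.Agent.N741.HB

theorem InP_iff {d : ℕ} (h p : MvPolynomial (Option (Fin d)) ℤ) :
    InP h p ↔ ∃ c : MvPolynomial (Fin d) ℤ, c ≠ 0 ∧ E d h ∣ Polynomial.C c * E d p := by
  unfold InP
  refine exists_congr fun c => and_congr_right fun _ => ?_
  rw [dvd_iff, map_mul, E_rename]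

theorem natDegree_pos {d : ℕ} {h : MvPolynomial (Option (Fin d)) ℤ} (h0 : h ≠ 0)
    (h1 : ¬ InP h 1) : 0 < (E d h).natDegree := by
  by_contra hn
  apply h1
  rw [InP_iff]
  have hE : E d h = Polynomial.C ((E d h).coeff 0) :=
    Polynomial.eq_C_of_natDegree_eq_zero (by omega)
  refine ⟨(E d h).coeff 0, ?_, ?_⟩
  · intro h2
    rw [h2, map_zero] at hE
    exact h0 ((EmbeddingLike.map_eq_zero_iff (f := E d)).1 hE)
  · rw [map_one, mul_one, ← hE]

/-- If `H` divides `c P` with `c ≠ 0` then it divides `l ^ k P`. -/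
theorem dvd_of {d : ℕ} {H P : Polynomial (MvPolynomial (Fin d) ℤ)} (hn : 0 < H.natDegree)
    {c : MvPolynomial (Fin d) ℤ} (hc : c ≠ 0) (h : H ∣ Polynomial.C c * P) :
    ∃ k, H ∣ Polynomial.C H.leadingCoeff ^ k * P := by
  obtain ⟨k, q, r, h1, h2⟩ := pdiv H hn (P.natDegree + 1) P (by omega)
  have h3 : H ∣ Polynomial.C c * r := by
    have e : Polynomial.C c * r = Polynomial.C H.leadingCoeff ^ k * (Polynomial.C c * P) -
        H * (Polynomial.C c * q) := by
      have : Polynomial.C c * (Polynomial.C H.leadingCoeff ^ k * P) =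
        Polynomial.C c * (H * q + r) := by rw [h1]
      linear_combination (exp := 1) -this
    rw [e]
    exact dvd_sub (Dvd.dvd.mul_left h _) (dvd_mul_right _ _)
  have h4 : Polynomial.C c * r = 0 :=
    Polynomial.eq_zero_of_dvd_of_natDegree_lt h3
      (lt_of_le_of_lt (Polynomial.natDegree_C_mul_le c r) h2)
  have h5 : r = 0 := by
    rcases mul_eq_zero.1 h4 with h | h
    · exact absurd (Polynomial.C_eq_zero.1 h) hc
    · exact h
  exact ⟨k, ⟨q, by rw [h1, h5, add_zero]⟩⟩

theorem van : S_van := by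
  intro d h h0 h1
  have hn := natDegree_pos h0 h1
  refine ⟨(E d h).leadingCoeff, ?_, ?_, ?_, ?_⟩
  · rw [Polynomial.leadingCoeff_ne_zero]
    exact fun e => h0 ((EmbeddingLike.map_eq_zero_iff (f := E d)).1 e)
  · exact totalDegree_coeff_optionEquivLeft_le _ _ h _
  · intro m
    exact ⟨_, optionEquivLeft_coeff_coeff _ h _ m⟩
  · intro p hp
    obtain ⟨c, hc, hcp⟩ := (InP_iff h p).1 hp
    obtain ⟨k, hk⟩ := dvd_of hn hc hcp
    refine ⟨k, ?_⟩
    rw [dvd_iff, map_mul, map_pow, E_rename]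
    exact hk

end Pool.Agent.N572.HB
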